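import Mathlib
import Pool.Agent.Helper64.MC.St1
import Pool.Agent.Helper88.MC.EXI

/-!
MP_4042d8_co, row X_ZERO: flips of cost zero.
-/

set_option autoImplicit false
set_option linter.unusedSectionVars false

namespace Pool.Agent.Helper42.MC

open Pool.Agent.Helper27.MC Pool.Agent.Helper51.MC Pool.Agent.Helper88.MC Pool.Agent.Helper64.MC

section

variable {V : Type} [Fintype V] [DecidableEq V] {G : SimpleGraph V} [DecidableRel G.Adj]

theorem phi_not (c : V → Bool) : Phi G (fun w => !(c w)) = Phi G c := by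
  unfold Phi ZZ
  simp only [mu_not, imb_not, abs_neg]

/-- potential after a flip in terms of the cost -/
theorem phi_flip (hG : G.IsRegularOfDegree 3) {c : V → Bool} {j : ℕ} (hO : Opt G c j)
    (X : Finset V) :
    Phi G (flp c X) = Phi G c + 2 * cost G c X + 2 * |(j : ℤ) - dd c X| - 2 * (j : ℤ) := by
  have h2 := flip_ZZ G hG c X
  have h3 := flip_imb c X
  have h4 : |2 * (j : ℤ) - 2 * dd c X| = 2 * |(j : ℤ) - dd c X| := by
    rw [← mul_sub, abs_mul]; norm_num
  have h5 : |2 * (j : ℤ)| = 2 * (j : ℤ) := abs_of_nonneg (by positivity)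
  have h6 : ∑ x ∈ X, (6 - 4 * (mu G c x : ℤ)) = 2 * ∑ x ∈ X, (3 - 2 * (mu G c x : ℤ)) := by
    rw [Finset.mul_sum]
    exact Finset.sum_congr rfl fun x _ => by ring
  unfold Phi
  rw [h2, h3, hO.imb2, h4, h5, h6]
  unfold cost
  ring

/-- an optimal colouring from another colouring with the same potential -/
theorem opt_of {c c' : V → Bool} {j : ℕ} (hO : Opt G c j) (hP : Phi G c' = Phi G c)
    (hm : ∀ v, mu G c' v ≤ 1) (hi : imb c' = 2 * (j : ℤ)) : Opt G c' j := by
  refine ⟨fun c'' => ?_, hm, hi, fun c'' h1 h2 => ?_⟩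
  · rw [hP]
    exact hO.min c''
  · exact hO.imin c'' (h1.trans hP) h2

end

/-- row X_ZERO -/
theorem ZERO : ST_ZERO := by
  intro V _ _ G _ hG c j hO
  refine ⟨?_, ?_, ?_⟩
  · intro X h1 h2 h3
    have h4 := Pge hG hO X
    have h5 := phi_flip hG hO X
    rw [h2, sub_zero, abs_of_nonneg (by positivity : (0 : ℤ) ≤ (j : ℤ))] at h4 h5
    refine opt_of hO (by linarith) h3 ?_
    rw [flip_imb, hO.imb2, h2]
    ring
  · intro X h1 h2 h3
    have h4 := Pge hG hO X
    have h5 := phi_flip hG hO X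
    have h6 : |(j : ℤ) - dd c X| = (j : ℤ) := by
      rw [h2]
      have : (j : ℤ) - 2 * (j : ℤ) = -(j : ℤ) := by ring
      rw [this, abs_neg]
      exact abs_of_nonneg (by positivity)
    rw [h6] at h4 h5
    refine opt_of hO (by rw [phi_not]; linarith) (fun v => by rw [mu_not]; exact h3 v) ?_
    rw [imb_not, flip_imb, hO.imb2, h2]
    ring
  · intro X h
    exact ⟨_, h⟩

end Pool.Agent.Helper42.MC
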