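import Mathlib
import Pool.Agent.Helper91.MC.SVX
import Pool.Agent.Helper78.MC.SQ

/-!
MP_4042d8_co, row X_AP: apex.
-/

set_option autoImplicit false
set_option linter.unusedSectionVars false

namespace Pool.Agent.Helper42.MC

open Pool.Agent.Helper27.MC Pool.Agent.Helper51.MC Pool.Agent.Helper88.MC Pool.Agent.Helper64.MC
open Pool.Agent.Helper91.MC Pool.Agent.Helper78.MC

/-- row X_AP -/
theorem AP : ST_AP := by
  intro V _ _ G _ hG c j hj hO u m a b t t' e S htt T
  rcases tA_or_tQ hO.mu1 T.cb with he | he
  swap
  · exact Or.inl he
  by_cases heb : e = b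
  · exact Or.inr heb
  exfalso
  have hm := hO.mu1
  have cu := S.cu
  have cm := S.cm
  have ca := S.ca
  have cb := S.cb
  have ct : c t = false := T.cs
  have ct' : c t' = false := T.cm
  have ce : c e = true := T.cb
  have rum : Rm G c u m := S.um
  have nbu := S.nbu
  have nba := S.nba
  have nbt := T.n3.nb
  have hau : a ≠ u := (ne_col cu ca).symm
  have hat : a ≠ t := (ne_col ct ca).symm
  have hut : u ≠ t := S.hxu.symm
  have hut' : u ≠ t' := S.hyu.symm
  have htt'n : t ≠ t' := S.hxy
  have hae : a ≠ e := T.n3.yz
  have nut : ¬ Rm G c u t := by
    intro h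
    exact hut' (rm_uniq (hm t) h.symm htt)
  have hmt : m ≠ t := by
    rintro rfl
    exact nut rum
  have hmu : m ≠ u := rum.ne.symm
  have hma : m ≠ a := ne_col cm ca
  have nbt' : ¬ G.Adj t b := by
    intro h
    rcases (nbt b).1 h with h | h | h
    · exact ne_col ct' cb h.symm
    · exact S.hab h.symm
    · exact heb h.symm
  have nue : ¬ G.Adj u e := by
    intro h
    rcases (nbu e).1 h with h | h | h
    · exact ne_col cm ce h.symm
    · exact hae h.symm
    · exact heb h
  have mX : ∀ z, z ∈ ([u, a, t].toFinset : Finset V) ↔ z = u ∨ z = a ∨ z = t := by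
    intro z
    simp
  have m1 : mu G c u = 1 := mu_of_rm hm rum
  have m2 : mu G c t = 1 := mu_of_rm hm htt
  refine Pcrit hG hO [u, a, t] (by simp [hau.symm, hut, hat]) 1
    (by simp [dl_cons, dl_nil, cu, ca, ct]) (by norm_num) (by exact_mod_cast hj) ?_ ?_
  · simp only [cl_cons, cl_nil, List.map_cons, List.map_nil, List.sum_cons, List.sum_nil, m1, m2,
      S.ma]
    have e1 : sf G c u a = 1 := sf_adj ((nbu a).2 (by simp)) (by rw [cu, ca]; decide)
    have e2 : sf G c a t = 1 := sf_adj ((nba t).2 (by simp)) (by rw [ct, ca]; decide)
    have e3 : 0 ≤ sf G c u t := sf_nrm nut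
    push_cast
    linarith
  · intro v
    by_cases hv : v ∈ ([u, a, t].toFinset : Finset V)
    · rcases (mX v).1 hv with rfl | rfl | rfl
      · refine mu_le_one (z := b) fun y hy => ?_
        rcases (rm_in hv y).1 hy with ⟨h1, h2⟩ | ⟨h1, h2, h3⟩
        · exfalso
          have h4 := rm_uniq (hm v) h2 rum
          rcases (mX y).1 h1 with h | h | h
          · exact h2.ne h.symm
          · exact hma (h4.symm.trans h)
          · exact hmt (h4.symm.trans h)
        · rcases (nbu y).1 h2 with h | h | h
          · rw [h, cm, cu] at h3
            exact absurd rfl h3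
          · exact absurd ((mX y).2 (Or.inr (Or.inl h))) h1
          · exact h
      · refine mu_le_one (z := t') fun y hy => ?_
        rcases (rm_in hv y).1 hy with ⟨h1, h2⟩ | ⟨h1, h2, h3⟩
        · exact absurd h2 (nomate S.ma y)
        · rcases (nba y).1 h2 with h | h | h
          · exact absurd ((mX y).2 (Or.inl h)) h1
          · exact absurd ((mX y).2 (Or.inr (Or.inr h))) h1
          · exact h
      · refine mu_le_one (z := e) fun y hy => ?_
        rcases (rm_in hv y).1 hy with ⟨h1, h2⟩ | ⟨h1, h2, h3⟩
        · exfalso
          have h4 := rm_uniq (hm v) h2 htt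
          rcases (mX y).1 h1 with h | h | h
          · exact hut' (h.symm.trans h4)
          · exact ne_col ct' ca (h4.symm.trans h)
          · exact h2.ne h.symm
        · rcases (nbt y).1 h2 with h | h | h
          · rw [h, ct', ct] at h3
            exact absurd rfl h3
          · exact absurd ((mX y).2 (Or.inr (Or.inl h))) h1
          · exact h
    · by_cases hvb : v = b
      · subst hvb
        refine mu_le_one (z := u) fun y hy => ?_
        have hy' := (rm0 S.mb hv y).1 hy
        rcases (mX y).1 hy'.1 with h | h | h
        · exact h
        · rw [h, ca, cb] at hy'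
          exact absurd rfl hy'.2.2
        · exact absurd (h ▸ hy'.2.1.symm) nbt'
      · by_cases hve : v = e
        · subst hve
          refine mu_le_one (z := t) fun y hy => ?_
          have hy' := (rm0 he.2 hv y).1 hy
          rcases (mX y).1 hy'.1 with h | h | h
          · exact absurd (h ▸ hy'.2.1.symm) nue
          · rw [h, ca, ce] at hy'
            exact absurd rfl hy'.2.2
          · exact h
        · by_cases hvt : v = t'
          · subst hvt
            refine mu_le_one (z := a) fun y hy => ?_
            rcases (rm_out hv y).1 hy with ⟨h1, h2⟩ | ⟨h1, h2, h3⟩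
            · exfalso
              have h4 := rm_uniq (hm v) h2 htt.symm
              exact h1 ((mX y).2 (Or.inr (Or.inr h4)))
            · rcases (mX y).1 h1 with h | h | h
              · rw [h, cu, ct'] at h3
                exact absurd rfl h3
              · exact h
              · rw [h, ct, ct'] at h3
                exact absurd rfl h3
          · refine mu_old hm hv fun z hz h1 h2 => ?_
            have hv' : v ≠ u ∧ v ≠ a ∧ v ≠ t := by
              refine ⟨fun h => hv ((mX v).2 (Or.inl h)), fun h => hv ((mX v).2 (Or.inr (Or.inl h))),
                fun h => hv ((mX v).2 (Or.inr (Or.inr h)))⟩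
            rcases (mX z).1 hz with rfl | rfl | rfl
            · rcases (nbu v).1 h1.symm with h | h | h
              · rw [h, cm, cu] at h2
                exact h2 rfl
              · exact hv'.2.1 h
              · exact hvb h
            · rcases (nba v).1 h1.symm with h | h | h
              · exact hv'.1 h
              · exact hv'.2.2 h
              · exact hvt h
            · rcases (nbt v).1 h1.symm with h | h | h
              · exact hvt h
              · exact hv'.2.1 h
              · exact hve h

end Pool.Agent.Helper42.MC
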